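import Pool.Agent.Helper90.MZ.StmtsA

/-!
# MP_79eb7e_lc, module SRDC: descent, the strongly regular type over `M`
-/

set_option autoImplicit false

namespace Pool.Agent.Helper90.MZ

open Pool.Agent.Helper90.TS

variable {V G : Type} [Group G] [MulAction G V]

/-- two points of maximal rank in a set of degree one have the same type -/
theorem srdc_eqv (X : Ctx V G) {M : Set V} (hM : M.Countable) {α : Ordinal.{0}}
    {θ : Set (Fin 1 → V)} (hθ : X.Ov M θ) (hd : X.Dg1 α θ) {x y : Fin 1 → V} (hx : x ∈ θ)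
    (hy : y ∈ θ) (hrx : X.rk M x = α) (hry : X.rk M y = α) : Eqv G M x y := by
  apply st_TYPE V G X M hM
  intro D hD hxD
  by_contra hyD
  have h1 : X.Rge α (θ ∩ D) := by
    have := (a_rkb V G X (Fin 1) x).2.2.1 M (θ ∩ D) (ov_inter hθ hD) ⟨hx, hxD⟩
    rwa [hrx] at this
  have h2 : X.Rge α (θ \ D) := by
    have := (a_rkb V G X (Fin 1) y).2.2.1 M (θ \ D) (ov_diff hθ hD) ⟨hy, hyD⟩
    rwa [hry] at this
  exact hd.2.2 (θ ∩ D) (θ \ D) Set.inter_subset_left Set.sdiff_subset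
    (Set.disjoint_left.2 fun z hz hz' => hz'.2 hz.2) h1 h2

/-- the rank of sections is definable, over the same parameters -/
theorem srdc_def (X : Ctx V G) {A : Set V} {κ ι : Type} [Finite κ] [Finite ι] {α : Ordinal.{0}}
    {D : Set (ι → V)} {E : Set (κ ⊕ ι → V)} (hD : X.Ov A D) (hr : ¬ X.Rge (Order.succ α) D)
    (hE : X.Ov A E) : X.Ov A {z : κ → V | X.Rge α (D ∩ {x | Sum.elim z x ∈ E})} := by
  refine ⟨a_def V G X κ ι α D E hD.1 hr hE.1, ?_⟩
  intro g hg z hz
  have h1 := ((a_rbas V G X ι).2.2.1 α (D ∩ {x | Sum.elim (g • z) x ∈ E}) g).1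
  refine h1 ?_
  have e : {x | g • x ∈ D ∩ {x | Sum.elim (g • z) x ∈ E}} = D ∩ {x | Sum.elim z x ∈ E} := by
    ext x
    constructor
    · rintro ⟨h2, h3⟩
      refine ⟨(inv_iff hD.2 hg x).1 h2, ?_⟩
      have h4 : Sum.elim (g • z) (g • x) ∈ E := h3
      rw [← smul_elim] at h4
      exact (inv_iff hE.2 hg _).1 h4
    · rintro ⟨h2, h3⟩
      refine ⟨(inv_iff hD.2 hg x).2 h2, ?_⟩
      show Sum.elim (g • z) (g • x) ∈ E
      rw [← smul_elim]
      exact (inv_iff hE.2 hg _).2 h3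
  rw [e]
  exact hz

/-- a point of small rank lies in a set of small rank -/
theorem srdc_small (X : Ctx V G) {A : Set V} {ι : Type} [Finite ι] {b : ι → V} {α : Ordinal.{0}}
    (h : X.rk A b < α) : ∃ D : Set (ι → V), X.Ov A D ∧ b ∈ D ∧ ¬ X.Rge α D := by
  obtain ⟨D, h1, h2, h3⟩ := (a_rkb V G X ι b).1 A
  exact ⟨D, h1, h2, fun h4 => absurd ((h3 α).1 h4) (not_le.2 h)⟩

/-- a point in a set of small rank has small rank -/
theorem srdc_small' (X : Ctx V G) {A : Set V} {ι : Type} [Finite ι] {b : ι → V} {α : Ordinal.{0}}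
    {D : Set (ι → V)} (hD : X.Ov A D) (hb : b ∈ D) (h : ¬ X.Rge α D) : X.rk A b < α := by
  by_contra h1
  rw [not_lt] at h1
  have h2 := (a_rkb V G X ι b).2.2.1 A D hD hb
  exact h ((a_rbas V G X ι).2.1 (X.rk A b) α D h1 h2)

theorem srdc_mono (X : Ctx V G) {ι : Type} [Finite ι] {α : Ordinal.{0}} {D E : Set (ι → V)}
    (hE : E ∈ X.Df ι) (h : D ⊆ E) (hr : ¬ X.Rge α E) : ¬ X.Rge α D :=
  fun h1 => hr ((a_rbas V G X ι).1 α D E hE h h1)

/-- the definable property of the parameters -/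
theorem srdc_T (X : Ctx V G) {M : Set V} {α : Ordinal.{0}}
    {θ : Set (Fin 1 → V)} (hθ : X.Ov M θ) (hd : ¬ X.Rge (Order.succ α) θ) {k : ℕ}
    {E : Set (Fin k ⊕ (Fin 1 ⊕ Fin 1) → V)} (hE : X.Ov M E) {Bs : Set (Fin k → V)}
    (hBs : X.Ov M Bs) (z : Fin 1 → V) :
    X.Ov (M ∪ Set.range z) {u : Fin k → V | u ∈ Bs ∧
      ¬ X.Rge α (θ ∩ {y | ∃ x : Fin 1 → V, Sum.elim u (Sum.elim y x) ∈ E}) ∧
      ∃ y : Fin 1 → V, y ∈ θ ∧ Sum.elim u (Sum.elim y z) ∈ E ∧
        ¬ X.Rge α (θ ∩ {x | Sum.elim u (Sum.elim y x) ∈ E})} := by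
  let e : Fin k ⊕ (Fin 1 ⊕ Fin 1) ≃ (Fin k ⊕ Fin 1) ⊕ Fin 1 :=
    (Equiv.sumAssoc (Fin k) (Fin 1) (Fin 1)).symm
  have hE2 : X.Ov M {w : (Fin k ⊕ Fin 1) ⊕ Fin 1 → V | w ∘ e ∈ E} := ov_equiv hE e
  have key : ∀ (u : Fin k → V) (y x : Fin 1 → V),
      Sum.elim (Sum.elim u y) x ∘ e = Sum.elim u (Sum.elim y x) := by
    intro u y x
    ext i
    rcases i with i | i | i <;> rfl
  have hP := srdc_def X hθ hd hE2
  have hY := ov_ex hE2
  have hQ := srdc_def X hθ hd hY
  have hS := ov_secr hE2 z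
  have hB := ov_prod (X := X) hBs hθ
  have hsub : M ⊆ M ∪ Set.range z := Set.subset_union_left
  have h1 := ov_ex (ov_inter (ov_mono X hsub (ov_diff hB hP)) hS)
  have h2 := ov_inter (ov_mono X hsub (ov_diff hBs hQ)) h1
  have hcongr : ∀ S T : Set (Fin k → V), X.Ov (M ∪ Set.range z) S → T ⊆ S → S ⊆ T →
      X.Ov (M ∪ Set.range z) T := by
    intro S T hS' ha hb
    rwa [Set.Subset.antisymm ha hb]
  refine hcongr _ _ h2 ?_ ?_
  · rintro u ⟨h3, h4, y, h5, h6, h7⟩
    refine ⟨⟨h3, ?_⟩, y, ⟨⟨?_, ?_⟩, ?_⟩⟩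
    · intro h8
      apply h4
      simp only [Set.mem_ofPred_eq, key] at h8
      exact h8
    · exact ⟨h3, h5⟩
    · intro h8
      apply h7
      simp only [Set.mem_ofPred_eq, key] at h8
      exact h8
    · simp only [Set.mem_ofPred_eq, key]
      exact h6
  · rintro u ⟨⟨h3, h4⟩, y, ⟨⟨h5, h6⟩, h7⟩⟩
    simp only [Set.mem_ofPred_eq, key] at h4 h6 h7
    exact ⟨h3, h4, y, h5.2, h7, h6⟩

theorem st_SRDC (h1 : ST_COH) (h2 : ST_DOM) (h3 : ST_RKZ) (h4 : ST_MDLB) : ST_SRDC := by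
  intro V G _ _ X M M1 M3 s α θ d e hM hM1 hMM1 hs hsA hθ hd hmin hRd hAt heθ heM3 hde hre
  have hMc := hM.1
  have hM1c := hM1.1
  have hec : (Set.range e).Countable := Set.countable_range e
  have hdc : (Set.range d).Countable := Set.countable_range d
  have hsuc : ¬ X.Rge (Order.succ α) θ := hd.2.1
  have hle : ∀ y ∈ θ, ∀ B : Set V, X.rk (M ∪ B) y ≤ α := by
    intro y hy B
    exact (a_rkb V G X (Fin 1) y).2.1 (M ∪ B) θ α (ov_mono X Set.subset_union_left hθ) hy hsuc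
  have hrM : X.rk M e = α := by
    refine le_antisymm ?_ ?_
    · exact (a_rkb V G X (Fin 1) e).2.1 M θ α hθ heθ hsuc
    · rw [← hre]
      exact (a_rkb V G X (Fin 1) e).2.2.2.1 M M1 hMM1
  have hMuM1 : M ∪ M1 = M1 := Set.union_eq_self_of_subset_left hMM1
  have heM1 : SI X M (Set.range e) M1 := by
    rw [← rk_si hMc hM1c, hMuM1, hre, hrM]
  have hed : ¬ SI X M1 (Set.range e) (Set.range d) := fun h => hde (si_symm hM1c hec hdc h)
  have hSR : SR X ⟨M, θ, e⟩ := by
    refine ⟨hMc, hθ, heθ, ⟨θ, hθ, heθ, ?_⟩, ?_, ?_⟩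
    · show X.Dg1 (X.rk M e) θ
      rw [hrM]
      exact hd
    · show X.rk M e ≠ 0
      intro h0
      have h5 : X.rk M1 e = 0 := by rw [hre, ← hrM, h0]
      have h6 := (h3 V G X M1 hM1c (Fin 1) e).1 h5
      rw [(h4 V G X).2.2.1 M1 hM1] at h6
      apply hde
      apply si_self_right
      rintro _ ⟨i, rfl⟩
      exact h6 i
    · intro B hB y hy
      change y ∈ θ at hy
      by_cases hry : X.rk (M ∪ B) y = α
      · left
        have h5 : X.rk M y = α := by
          refine le_antisymm ?_ ?_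
          · exact (a_rkb V G X (Fin 1) y).2.1 M θ α hθ hy hsuc
          · rw [← hry]
            exact (a_rkb V G X (Fin 1) y).2.2.2.1 M (M ∪ B) Set.subset_union_left
        refine ⟨srdc_eqv X hMc hθ hd heθ hy hrM h5, ?_⟩
        show SI X M (Set.range y) B
        rw [← rk_si hMc hB, hry, h5]
      · right
        have hlt : X.rk (M ∪ B) y < α := lt_of_le_of_ne (hle y hy B) hry
        rintro z ⟨hz1, hz2⟩
        change Eqv G M e z at hz1
        change SI X M (Set.range z) B at hz2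
        show SI X (M ∪ B) (Set.range z) (Set.range y)
        by_contra hzy
        have hMB : (M ∪ B).Countable := hMc.union hB
        have hzc : (Set.range z).Countable := Set.countable_range z
        have hyc : (Set.range y).Countable := Set.countable_range y
        have hzM : X.rk M z = α := by
          rw [(a_rkb V G X (Fin 1) e).2.2.2.2.2 M z hz1, hrM]
        have hzMB : X.rk (M ∪ B) z = α := by
          rw [(rk_si hMc hB).2 hz2, hzM]
        have hzθ : z ∈ θ := by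
          obtain ⟨g, hg, rfl⟩ := hz1
          exact hθ.2 g hg e heθ
        have hlt2 : X.rk ((M ∪ B) ∪ Set.range y) z < α := by
          refine lt_of_le_of_ne ?_ ?_
          · rw [← hzMB]
            exact (a_rkb V G X (Fin 1) z).2.2.2.1 (M ∪ B) _ Set.subset_union_left
          · intro h
            apply hzy
            rw [← rk_si hMB hyc, h, hzMB]
        obtain ⟨D1, hD1, hyD1, hD1r⟩ := srdc_small X hlt
        obtain ⟨D2, hD2, hzD2, hD2r⟩ := srdc_small X hlt2
        obtain ⟨E2, hE2, rfl⟩ := a_fsu2 V G X (M ∪ B) hMB (Fin 1) (Fin 1) y D2 hD2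
        have hF : X.Ov (M ∪ B) ({w : Fin 1 ⊕ Fin 1 → V | w ∘ Sum.inl ∈ D1 ∧ w ∘ Sum.inr ∈ θ} ∩ E2) :=
          ov_inter (ov_prod hD1 (ov_mono X Set.subset_union_left hθ)) hE2
        obtain ⟨k, β, E, hβ, hE, hEq⟩ := st_FSUP V G X (M ∪ B) hMB (Fin 1 ⊕ Fin 1) _ hF
        obtain ⟨Bs, hBs, hβBs⟩ := ov_sort (X := X) β
        have hMz : SI X M (M ∪ B) (Set.range z) := by
          rw [si_add_basel hMc hB hzc]
          exact si_symm hMc hzc hB hz2
        have hEm : ∀ y' x' : Fin 1 → V, Sum.elim β (Sum.elim y' x') ∈ E ↔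
            ((y' ∈ D1 ∧ x' ∈ θ) ∧ Sum.elim y' x' ∈ E2) := by
          intro y' x'
          have h5 : Sum.elim y' x' ∈ {w : Fin 1 ⊕ Fin 1 → V | w ∘ Sum.inl ∈ D1 ∧ w ∘ Sum.inr ∈ θ} ∩ E2 ↔
            Sum.elim y' x' ∈ {x | Sum.elim β x ∈ E} := by rw [hEq]
          simp only [Set.mem_inter_iff, Set.mem_ofPred_eq, Sum.elim_comp_inl, Sum.elim_comp_inr] at h5
          exact h5.symm
        obtain ⟨u, hu, huM⟩ := h1 V G X M (M ∪ B) (Set.range z) hM hMB hzc hMz (Fin k) _ β
          (srdc_T X hθ hsuc (ov_mono X (Set.empty_subset M) hE)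
            (ov_mono X (Set.empty_subset M) hBs) z) (by
            refine ⟨hβBs, ?_, y, hy, ?_, ?_⟩
            · refine srdc_mono X hD1.1 ?_ hD1r
              rintro y' ⟨_, x', hx'⟩
              exact ((hEm y' x').1 hx').1.1
            · exact (hEm y z).2 ⟨⟨hyD1, hzθ⟩, hzD2⟩
            · refine srdc_mono X hD2.1 ?_ hD2r
              rintro x' ⟨_, hx'⟩
              exact ((hEm y x').1 hx').2) hβ
        obtain ⟨-, hu1, y0, hy0, hu2, hu3⟩ := hu
        set E0 : Set (Fin 1 → V) :=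
          θ ∩ {y | ∃ x : Fin 1 → V, Sum.elim u (Sum.elim y x) ∈ E} with hE0
        have hEM : X.Ov M E := ov_mono X (Set.empty_subset M) hE
        have hE0ov : X.Ov M E0 := by
          refine ov_inter hθ ?_
          exact ov_ex (ov_sec' hEM huM)
        have hy0E : y0 ∈ E0 := ⟨hy0, z, hu2⟩
        have hnz : ¬ SI X M (Set.range z) (Set.range y0) := by
          intro h
          have h5 : X.rk (M ∪ Set.range y0) z = α := by
            rw [(rk_si hMc (Set.countable_range y0)).2 h, hzM]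
          have h6 : X.Ov (M ∪ Set.range y0) (θ ∩ {x | Sum.elim u (Sum.elim y0 x) ∈ E}) := by
            refine ov_inter (ov_mono X Set.subset_union_left hθ) ?_
            exact ov_sec (ov_sec' hEM huM) y0
          have h7 := srdc_small' X h6 ⟨hzθ, hu2⟩ hu3
          rw [h5] at h7
          exact lt_irrefl _ h7
        obtain ⟨g, hg, hgz⟩ := hz1
        have hb0 : g⁻¹ • y0 ∈ E0 := hE0ov.2 g⁻¹ (inv_mem hg) y0 hy0E
        have hb1 : ¬ SI X M (Set.range e) (Set.range (g⁻¹ • y0)) := by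
          intro h
          apply hnz
          have h5 := (si_fx (X := X) hMc hec (Set.countable_range (g⁻¹ • y0)) hg).2 h
          rw [tr_range, tr_range, hgz, smul_inv_smul] at h5
          exact h5
        have hsM : s.A ∪ M1 = M1 := Set.union_eq_self_of_subset_left hsA
        have hb2 : SI X M1 (Set.range d) (Set.range (g⁻¹ • y0)) := by
          have h5 := hmin E0 hE0ov hu1 M1 hM1c hMM1 _ hb0 d hRd
          rwa [hsM] at h5
        have hbc : (Set.range (g⁻¹ • y0)).Countable := Set.countable_range _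
        have hb3 := (h2 V G X M1 (Set.range d) (Set.range (g⁻¹ • y0)) M3 hM1 hdc hbc hAt
          (si_symm hM1c hdc hbc hb2)).1
        have hb4 : SI X M1 (Set.range e) (Set.range (g⁻¹ • y0)) :=
          si_symm hM1c hbc hec (si_right hM1c hbc hAt.1.1 heM3 hb3)
        apply hb1
        have hb5 := si_trans' hec hM1c hbc hMM1 heM1 hb4
        exact si_right hMc hec (hM1c.union hbc) Set.subset_union_right hb5
  refine ⟨hSR, M1, e, d, hM1c, hMM1, hsA, ⟨eqv_refl M e, heM1⟩, hRd, hed⟩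

end Pool.Agent.Helper90.MZ
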